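import Pool.Agent.H900.Tor.Meas

set_option autoImplicit false

namespace Pool.Agent.H900.Tor

open Metric MeasureTheory Module
open scoped InnerProductSpace Pointwise ENNReal

variable {E : Type*} [NormedAddCommGroup E] [InnerProductSpace ℝ E] [FiniteDimensional ℝ E]
  [MeasurableSpace E] [BorelSpace E]
variable (L : Submodule ℤ E) [DiscreteTopology L] [IsZLattice ℝ L]

/-- the periodic displacement -/
noncomputable def st (τ : ℝ) (w : E) : E := w - K L τ w

omit [MeasurableSpace E] [BorelSpace E] [IsZLattice ℝ L] in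
lemma st_per {τ : ℝ} (hτ : 0 < τ) {l : E} (hl : l ∈ L) (w : E) : st L τ (w + l) = st L τ w := by
  unfold st
  rw [K_add L (isClosed_L L) hτ w hl]
  abel

omit [MeasurableSpace E] [BorelSpace E] [IsZLattice ℝ L] in
lemma st_cont {τ : ℝ} (hτ : 0 < τ) : Continuous (st L τ) :=
  continuous_id.sub (K_continuous L (isClosed_L L) hτ)

/-- the averaged squared distance -/
noncomputable def N (τ : ℝ) (u v : E) : ℝ :=
  ∫ w in dom L, ‖st L τ (w + u) - st L τ (w + v)‖ ^ 2

omit [MeasurableSpace E] [BorelSpace E] [IsZLattice ℝ L] in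
lemma upper_pt {τ : ℝ} (hτ : 0 < τ) (u v w : E) :
    ‖st L τ (w + u) - st L τ (w + v)‖ ^ 2 ≤ ‖u - v‖ ^ 2 + ((1 + τ) / τ - 2) *
      (‖u - v‖ ^ 2 - ⟪u - v, st L τ (w + u)⟫_ℝ + ⟪u - v, st L τ (w + v)⟫_ℝ) := by
  have a := K_coco L (isClosed_L L) hτ (w + u) (w + v)
  set d := K L τ (w + u) - K L τ (w + v) with hd
  have e1 : st L τ (w + u) - st L τ (w + v) = (u - v) - d := by
    unfold st; rw [hd]; abel
  have e2 : w + u - (w + v) = u - v := by abel
  rw [e2] at a
  have e3 : ‖u - v‖ ^ 2 - ⟪u - v, st L τ (w + u)⟫_ℝ + ⟪u - v, st L τ (w + v)⟫_ℝ = ⟪u - v, d⟫_ℝ := by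
    have : d = (u - v) - (st L τ (w + u) - st L τ (w + v)) := by rw [e1]; abel
    rw [this, inner_sub_right (u - v) (u - v), real_inner_self_eq_norm_sq, inner_sub_right]
    ring
  rw [e3, e1, norm_sub_sq_real]
  have a' : ‖d‖ ^ 2 ≤ (1 + τ) / τ * ⟪u - v, d⟫_ℝ := by
    rw [div_mul_eq_mul_div, le_div_iff₀ hτ]
    linarith
  linarith

lemma N_upper_raw {τ : ℝ} (hτ : 0 < τ) (u v : E) :
    N L τ u v ≤ (volume : Measure E).real (dom L) * (‖u - v‖ ^ 2 / τ) := by
  have hc : Continuous (st L τ) := st_cont L hτ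
  unfold N
  have i1 : IntegrableOn (fun w => ‖st L τ (w + u) - st L τ (w + v)‖ ^ 2) (dom L) volume :=
    integrableOn_dom L (by fun_prop)
  have i3 : IntegrableOn (fun w => ⟪u - v, st L τ (w + u)⟫_ℝ) (dom L) volume :=
    integrableOn_dom L (by fun_prop)
  have i4 : IntegrableOn (fun w => ⟪u - v, st L τ (w + v)⟫_ℝ) (dom L) volume :=
    integrableOn_dom L (by fun_prop)
  have i5 : IntegrableOn (fun _ : E => ‖u - v‖ ^ 2) (dom L) volume :=
    integrableOn_dom L (by fun_prop)
  have i2 : IntegrableOn (fun w => ‖u - v‖ ^ 2 + ((1 + τ) / τ - 2) *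
      (‖u - v‖ ^ 2 - ⟪u - v, st L τ (w + u)⟫_ℝ + ⟪u - v, st L τ (w + v)⟫_ℝ)) (dom L) volume :=
    integrableOn_dom L (by fun_prop)
  refine (setIntegral_mono i1 i2 (fun w => upper_pt L hτ u v w)).trans (le_of_eq ?_)
  have s1 : ∫ w in dom L, ⟪u - v, st L τ (w + u)⟫_ℝ = ∫ w in dom L, ⟪u - v, st L τ w⟫_ℝ :=
    integral_shift L (fun w => ⟪u - v, st L τ w⟫_ℝ)
      (fun l hl x => by simp only [st_per L hτ hl x]) u
  have s2 : ∫ w in dom L, ⟪u - v, st L τ (w + v)⟫_ℝ = ∫ w in dom L, ⟪u - v, st L τ w⟫_ℝ :=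
    integral_shift L (fun w => ⟪u - v, st L τ w⟫_ℝ)
      (fun l hl x => by simp only [st_per L hτ hl x]) v
  have s3 : ∫ _w in dom L, ‖u - v‖ ^ 2 = (volume : Measure E).real (dom L) * ‖u - v‖ ^ 2 := by
    rw [setIntegral_const, smul_eq_mul]
  have i35 : IntegrableOn (fun w => ‖u - v‖ ^ 2 - ⟪u - v, st L τ (w + u)⟫_ℝ) (dom L) volume :=
    i5.sub i3
  have i345 : IntegrableOn (fun w => ‖u - v‖ ^ 2 - ⟪u - v, st L τ (w + u)⟫_ℝ
      + ⟪u - v, st L τ (w + v)⟫_ℝ) (dom L) volume := i35.add i4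
  rw [integral_add i5 (i345.const_mul _), integral_const_mul, integral_add i35 i4,
    integral_sub i5 i3, s1, s2, s3]
  field_simp
  ring

omit [MeasurableSpace E] [BorelSpace E] [IsZLattice ℝ L] in
lemma lower_pt {τ : ℝ} (hτ : 0 < τ) (u v w : E) :
    (infDist (u - v) (L : Set E)) ^ 2 * ((goodSet L τ).indicator (fun _ => (1:ℝ)) (w + u) +
      (goodSet L τ).indicator (fun _ => (1:ℝ)) (w + v) - 1) ≤
      ‖st L τ (w + u) - st L τ (w + v)‖ ^ 2 := by
  by_cases h1 : w + u ∈ goodSet L τ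
  · by_cases h2 : w + v ∈ goodSet L τ
    · rw [Set.indicator_of_mem h1, Set.indicator_of_mem h2]
      have e1 : st L τ (w + u) - st L τ (w + v) = (u - v) - (K L τ (w + u) - K L τ (w + v)) := by
        unfold st; abel
      have hm : K L τ (w + u) - K L τ (w + v) ∈ (L : Set E) := L.sub_mem h1 h2
      have := infDist_le_dist_of_mem (x := u - v) hm
      rw [dist_eq_norm, ← e1] at this
      have h0 : 0 ≤ infDist (u - v) (L : Set E) := infDist_nonneg
      nlinarith [pow_le_pow_left₀ h0 this 2]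
    · rw [Set.indicator_of_mem h1, Set.indicator_of_notMem h2]
      have := sq_nonneg ‖st L τ (w + u) - st L τ (w + v)‖
      simpa using this
  · have h3 : (goodSet L τ).indicator (fun _ => (1:ℝ)) (w + v) ≤ 1 :=
      Set.indicator_le' (fun _ _ => le_refl _) (fun _ _ => zero_le_one) _
    rw [Set.indicator_of_notMem h1]
    have := sq_nonneg ‖st L τ (w + u) - st L τ (w + v)‖
    have h0 : 0 ≤ (infDist (u - v) (L : Set E)) ^ 2 := sq_nonneg _
    nlinarith [mul_nonneg h0 (sub_nonneg.2 h3)]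

lemma N_lower {τ : ℝ} (hτ : 0 < τ) (u v : E) :
    (infDist (u - v) (L : Set E)) ^ 2 * ((2 * ((1 + τ)⁻¹) ^ finrank ℝ E - 1) *
      (volume : Measure E).real (dom L)) ≤ N L τ u v := by
  have hc : Continuous (st L τ) := st_cont L hτ
  have hG : MeasurableSet (goodSet L τ) := (goodSet_closed L hτ).measurableSet
  set I : E → ℝ := (goodSet L τ).indicator (fun _ => (1:ℝ)) with hI
  have hIm : Measurable I := measurable_const.indicator hG
  have i5 : IntegrableOn (fun _ : E => (1:ℝ)) (dom L) volume :=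
    integrableOn_dom L (by fun_prop)
  have iI : ∀ u : E, IntegrableOn (fun w => I (w + u)) (dom L) volume := by
    intro u
    refine Integrable.mono' i5 ?_ ?_
    · exact (hIm.comp (measurable_add_const u)).aestronglyMeasurable
    · refine Filter.Eventually.of_forall (fun w => ?_)
      rw [hI, Real.norm_eq_abs]
      by_cases h : w + u ∈ goodSet L τ
      · rw [Set.indicator_of_mem h]; simp
      · rw [Set.indicator_of_notMem h]; simp
  have hper : ∀ l ∈ L, ∀ x, I (x + l) = I x := by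
    intro l hl x
    have : x + l ∈ goodSet L τ ↔ x ∈ goodSet L τ := by
      unfold goodSet
      rw [Set.mem_setOf_eq, Set.mem_setOf_eq, K_add L (isClosed_L L) hτ x hl]
      exact L.add_mem_iff_left hl
    rw [hI]
    by_cases h : x ∈ goodSet L τ
    · rw [Set.indicator_of_mem h, Set.indicator_of_mem (this.2 h)]
    · rw [Set.indicator_of_notMem h, Set.indicator_of_notMem (fun hh => h (this.1 hh))]
  have s1 : ∀ u : E, ∫ w in dom L, I (w + u) =
      (volume : Measure E).real (goodSet L τ ∩ dom L) := by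
    intro u
    rw [integral_shift L I hper u, hI, integral_indicator hG, setIntegral_const,
      measureReal_restrict_apply hG, smul_eq_mul, mul_one]
  have i1 : IntegrableOn (fun w => ‖st L τ (w + u) - st L τ (w + v)‖ ^ 2) (dom L) volume :=
    integrableOn_dom L (by fun_prop)
  have i12 : IntegrableOn (fun w => I (w + u) + I (w + v)) (dom L) volume := (iI u).add (iI v)
  have i123 : IntegrableOn (fun w => I (w + u) + I (w + v) - 1) (dom L) volume := i12.sub i5
  have hmono := setIntegral_mono (i123.const_mul ((infDist (u - v) (L : Set E)) ^ 2)) i1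
    (fun w => lower_pt L hτ u v w)
  rw [integral_const_mul, integral_sub i12 i5, integral_add (iI u) (iI v), s1, s1,
    setIntegral_const, smul_eq_mul, mul_one] at hmono
  refine le_trans (mul_le_mul_of_nonneg_left ?_ (sq_nonneg _)) hmono
  have := good_vol L hτ
  linarith

lemma N_upper {τ : ℝ} (hτ : 0 < τ) (u v : E) :
    N L τ u v ≤ (volume : Measure E).real (dom L) *
      ((infDist (u - v) (L : Set E)) ^ 2 / τ) := by
  obtain ⟨l, hl, h⟩ := exists_nearest L (isClosed_L L) (u - v)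
  have h1 := N_upper_raw L hτ (u - l) v
  have h2 : N L τ (u - l) v = N L τ u v := by
    unfold N
    congr 1
    funext w
    have : w + (u - l) = (w + u) + (-l) := by abel
    rw [this, st_per L hτ (L.neg_mem hl)]
  have h3 : u - l - v = u - v - l := by abel
  rw [h2, h3, ← dist_eq_norm, ← h] at h1
  exact h1

end Pool.Agent.H900.Tor
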