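import Mathlib

set_option autoImplicit false

/-! Every separable real Hilbert space embeds linearly isometrically in `ℓ²(ℕ)`. -/

namespace Pool.Agent.H900.Tor

open Metric MeasureTheory Module
open scoped InnerProductSpace ENNReal

lemma orthonormal_countable {H : Type*} [NormedAddCommGroup H] [InnerProductSpace ℝ H]
    [TopologicalSpace.SeparableSpace H] {ι : Type*} {b : ι → H} (hb : Orthonormal ℝ b) :
    Countable ι := by
  have hdisj : Pairwise (Function.onFun Disjoint (fun i => ball (b i) (1 / 2))) := by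
    intro i j hij
    apply ball_disjoint_ball
    have h1 : dist (b i) (b j) ^ 2 = 2 := by
      rw [dist_eq_norm, norm_sub_sq_real, hb.1 i, hb.1 j, hb.2 hij]; norm_num
    have h0 : 0 ≤ dist (b i) (b j) := dist_nonneg
    nlinarith
  exact hdisj.countable_of_isOpen_disjoint (fun i => isOpen_ball)
    (fun i => ⟨b i, mem_ball_self (by norm_num)⟩)

theorem exists_isometry_l2 (H : Type*) [NormedAddCommGroup H] [InnerProductSpace ℝ H]
    [CompleteSpace H] [TopologicalSpace.SeparableSpace H] :
    Nonempty (H →ₗᵢ[ℝ] lp (fun _ : ℕ => ℝ) 2) := by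
  classical
  obtain ⟨w, b, -⟩ := exists_hilbertBasis ℝ H
  haveI : Countable w := orthonormal_countable b.orthonormal
  obtain ⟨e, he⟩ := exists_injective_nat w
  let v : w → lp (fun _ : ℕ => ℝ) 2 := fun i => lp.single 2 (e i) (1 : ℝ)
  have hv : Orthonormal ℝ v := by
    rw [orthonormal_iff_ite]
    intro i j
    change ⟪(lp.single 2 (e i) (1:ℝ) : lp (fun _ : ℕ => ℝ) 2), lp.single 2 (e j) (1:ℝ)⟫_ℝ = _
    rw [lp.inner_single_left, lp.single_apply, Pi.single_apply]
    by_cases h : i = j
    · simp [h]
    · have : e i ≠ e j := fun hh => h (he hh)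
      simp [h, this]
  exact ⟨hv.orthogonalFamily.linearIsometry.comp b.repr.toLinearIsometry⟩

end Pool.Agent.H900.Tor
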