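import Pool.Agent.H900.Tor.Avg
import Pool.Agent.H900.Tor.Hilb

set_option autoImplicit false

namespace Pool.Agent.H900.Tor

open Metric MeasureTheory Module
open scoped InnerProductSpace Pointwise ENNReal

variable {E : Type*} [NormedAddCommGroup E] [InnerProductSpace ℝ E] [FiniteDimensional ℝ E]
  [MeasurableSpace E] [BorelSpace E]
variable (L : Submodule ℤ E) [DiscreteTopology L] [IsZLattice ℝ L]

/-- the `L²` space used as a target -/
abbrev HH : Type _ := Lp E 2 ((volume : Measure E).restrict (dom L))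

instance : IsFiniteMeasure ((volume : Measure E).restrict (dom L)) :=
  ⟨by rw [Measure.restrict_apply_univ]; exact dom_lt_top L⟩

lemma memLp_of_cont {f : E → E} (hf : Continuous f) :
    MemLp f 2 ((volume : Measure E).restrict (dom L)) := by
  obtain ⟨C, hC⟩ := (isCompact_closure_dom L).exists_bound_of_continuousOn hf.continuousOn
  refine MemLp.of_bound hf.aestronglyMeasurable C ?_
  exact ae_restrict_of_forall_mem (dom_meas L) (fun x hx => hC x (subset_closure hx))

lemma norm_sub_toLp {f g : E → E} (hf : Continuous f) (hg : Continuous g) :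
    ‖(memLp_of_cont L hf).toLp f - (memLp_of_cont L hg).toLp g‖ ^ 2 =
      ∫ w in dom L, ‖f w - g w‖ ^ 2 := by
  rw [← MemLp.toLp_sub, ← real_inner_self_eq_norm_sq, L2.inner_def]
  apply integral_congr_ae
  filter_upwards [((memLp_of_cont L hf).sub (memLp_of_cont L hg)).coeFn_toLp] with w hw
  rw [hw, real_inner_self_eq_norm_sq]
  rfl

theorem embed {τ : ℝ} (hτ : 0 < τ) :
    ∃ F : E → lp (fun _ : ℕ => ℝ) 2, ∀ u v, ‖F u - F v‖ ^ 2 = N L τ u v := by
  haveI : ProperSpace E := FiniteDimensional.proper ℝ E
  haveI : SecondCountableTopology E := inferInstance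
  haveI : Fact ((2:ℝ≥0∞) ≠ ∞) := ⟨by norm_num⟩
  haveI : SecondCountableTopology (HH L) := Lp.SecondCountableTopology
  haveI : TopologicalSpace.SeparableSpace (HH L) := inferInstance
  obtain ⟨J⟩ := exists_isometry_l2 (HH L)
  have hc : Continuous (st L τ) := st_cont L hτ
  have hcu : ∀ u : E, Continuous (fun w => st L τ (w + u)) := fun u => by fun_prop
  refine ⟨fun u => J ((memLp_of_cont L (hcu u)).toLp _), fun u v => ?_⟩
  rw [← J.map_sub, J.norm_map, norm_sub_toLp L (hcu u) (hcu v)]
  rfl

end Pool.Agent.H900.Tor
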