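import Pool.Agent.H900.Tor.Prox

set_option autoImplicit false

/-! Averaging over a fundamental domain of the lattice. -/

namespace Pool.Agent.H900.Tor

open Metric MeasureTheory Module
open scoped InnerProductSpace Pointwise ENNReal

variable {E : Type*} [NormedAddCommGroup E] [InnerProductSpace ℝ E] [FiniteDimensional ℝ E]
  [MeasurableSpace E] [BorelSpace E]
variable (L : Submodule ℤ E) [DiscreteTopology L] [IsZLattice ℝ L]

/-- a fundamental domain -/
noncomputable def dom : Set E :=
  haveI := ZLattice.module_free ℝ L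
  haveI := ZLattice.module_finite ℝ L
  ZSpan.fundamentalDomain ((Free.chooseBasis ℤ L).ofZLatticeBasis ℝ L)

lemma dom_isFD : IsAddFundamentalDomain L (dom L) (volume : Measure E) := by
  haveI := ZLattice.module_free ℝ L
  haveI := ZLattice.module_finite ℝ L
  exact ZLattice.isAddFundamentalDomain (Free.chooseBasis ℤ L) volume

lemma dom_meas : MeasurableSet (dom L) := by
  haveI := ZLattice.module_free ℝ L
  haveI := ZLattice.module_finite ℝ L
  exact ZSpan.fundamentalDomain_measurableSet _

lemma dom_bdd : Bornology.IsBounded (dom L) := by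
  haveI := ZLattice.module_free ℝ L
  haveI := ZLattice.module_finite ℝ L
  exact ZSpan.fundamentalDomain_isBounded _

lemma dom_ne_zero : (volume : Measure E) (dom L) ≠ 0 := by
  haveI := ZLattice.module_free ℝ L
  haveI := ZLattice.module_finite ℝ L
  exact ZSpan.measure_fundamentalDomain_ne_zero _

lemma dom_lt_top : (volume : Measure E) (dom L) < ∞ := (dom_bdd L).measure_lt_top

lemma isCompact_closure_dom : IsCompact (closure (dom L)) := by
  haveI : ProperSpace E := FiniteDimensional.proper ℝ E
  exact (dom_bdd L).isCompact_closure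

omit [MeasurableSpace E] [BorelSpace E] [IsZLattice ℝ L] in
lemma isClosed_L : IsClosed (L : Set E) := by
  haveI : DiscreteTopology L.toAddSubgroup := (inferInstance : DiscreteTopology L)
  exact AddSubgroup.isClosed_of_discrete (H := L.toAddSubgroup)

/-- integral of a continuous function over the fundamental domain exists -/
lemma integrableOn_dom {F : Type*} [NormedAddCommGroup F] {f : E → F} (hf : Continuous f) :
    IntegrableOn f (dom L) volume :=
  (hf.continuousOn.integrableOn_compact (isCompact_closure_dom L)).mono_set subset_closure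

/-- translation invariance of integrals of periodic functions -/
lemma integral_shift {F : Type*} [NormedAddCommGroup F] [NormedSpace ℝ F] (f : E → F)
    (hf : ∀ l ∈ L, ∀ x, f (x + l) = f x) (u : E) :
    ∫ w in dom L, f (w + u) = ∫ w in dom L, f w := by
  haveI : MeasurableVAdd L E := (inferInstance : MeasurableVAdd L.toAddSubgroup E)
  haveI : VAddInvariantMeasure L E (volume : Measure E) :=
    (inferInstance : VAddInvariantMeasure L.toAddSubgroup E (volume : Measure E))
  haveI : VAddCommClass E L E := ⟨fun a l x => by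
    change a + ((l : E) + x) = (l : E) + (a + x)
    abel⟩
  have h1 := dom_isFD L
  have h2 : IsAddFundamentalDomain L (u +ᵥ dom L) (volume : Measure E) := h1.vadd_of_comm u
  have h3 := h1.setIntegral_eq h2 (f := f) (by
    intro g x
    change f ((g : E) + x) = f x
    rw [add_comm]
    exact hf g g.2 x)
  rw [h3]
  have h4 : (u +ᵥ dom L) = (fun w => w + u) '' (dom L) := by
    ext x
    simp only [Set.mem_vadd_set, Set.mem_image, vadd_eq_add]
    constructor
    · rintro ⟨y, hy, rfl⟩; exact ⟨y, hy, add_comm _ _⟩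
    · rintro ⟨y, hy, rfl⟩; exact ⟨y, hy, add_comm _ _⟩
  rw [h4]
  exact ((measurePreserving_add_right volume u).setIntegral_image_emb
    (measurableEmbedding_addRight u) f (dom L)).symm

/-- Voronoi cell -/
def vor : Set E := {v | infDist v (L : Set E) = ‖v‖}

omit [FiniteDimensional ℝ E] [InnerProductSpace ℝ E] [MeasurableSpace E] [BorelSpace E] [DiscreteTopology L] [IsZLattice ℝ L] in
lemma vor_closed : IsClosed (vor L) :=
  isClosed_eq (continuous_infDist_pt _) continuous_norm

/-- good points -/
def goodSet (τ : ℝ) : Set E := {w | K L τ w ∈ (L : Set E)}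

omit [MeasurableSpace E] [BorelSpace E] [IsZLattice ℝ L] in
lemma goodSet_closed {τ : ℝ} (hτ : 0 < τ) : IsClosed (goodSet L τ) :=
  (isClosed_L L).preimage (K_continuous L (isClosed_L L) hτ)

lemma vol_dom_le_vor : (volume : Measure E) (dom L) ≤ volume (vor L) := by
  haveI : MeasurableVAdd L E := (inferInstance : MeasurableVAdd L.toAddSubgroup E)
  haveI : VAddInvariantMeasure L E (volume : Measure E) :=
    (inferInstance : VAddInvariantMeasure L.toAddSubgroup E (volume : Measure E))
  rw [(dom_isFD L).measure_eq_tsum (vor L)]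
  have hsub : dom L ⊆ ⋃ g : L, (g +ᵥ vor L) ∩ dom L := by
    intro x hx
    obtain ⟨k, hk, h⟩ := exists_nearest L (isClosed_L L) x
    refine Set.mem_iUnion.2 ⟨⟨k, hk⟩, ?_, hx⟩
    refine Set.mem_vadd_set.2 ⟨x - k, ?_, ?_⟩
    · change infDist (x - k) (L : Set E) = ‖x - k‖
      have := infDist_add L x (L.neg_mem hk)
      rw [← sub_eq_add_neg] at this
      rw [this, h, dist_eq_norm]
    · change k + (x - k) = x
      abel
  exact (measure_mono hsub).trans (measure_iUnion_le _)

lemma vol_small_vor_le {τ : ℝ} (hτ : 0 < τ) :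
    (volume : Measure E) ((1 + τ)⁻¹ • vor L) ≤ volume (goodSet L τ ∩ dom L) := by
  haveI : MeasurableVAdd L E := (inferInstance : MeasurableVAdd L.toAddSubgroup E)
  haveI : VAddInvariantMeasure L E (volume : Measure E) :=
    (inferInstance : VAddInvariantMeasure L.toAddSubgroup E (volume : Measure E))
  have hT : (1 + τ)⁻¹ ≠ 0 := by positivity
  rw [(dom_isFD L).measure_eq_tsum ((1 + τ)⁻¹ • vor L)]
  have hK : ∀ (g : L) (x : E), x ∈ (g +ᵥ ((1 + τ)⁻¹ • vor L)) → K L τ x = g := by
    intro g x hx
    obtain ⟨y, hy, rfl⟩ := Set.mem_vadd_set.1 hx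
    obtain ⟨v, hv, rfl⟩ := Set.mem_smul_set.1 hy
    change K L τ ((g : E) + (1 + τ)⁻¹ • v) = g
    exact K_eq_of_voronoi L hτ g.2 hv
  rw [← measure_iUnion]
  · apply measure_mono
    intro x hx
    obtain ⟨g, hg, hx'⟩ := Set.mem_iUnion.1 hx
    refine ⟨?_, hx'⟩
    change K L τ x ∈ (L : Set E)
    rw [hK g x hg]
    exact g.2
  · intro g g' hgg'
    rw [Function.onFun, Set.disjoint_left]
    rintro x ⟨hx, -⟩ ⟨hx', -⟩
    exact hgg' (Subtype.ext ((hK g x hx).symm.trans (hK g' x hx')))
  · intro g
    apply MeasurableSet.inter _ (dom_meas L)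
    have : MeasurableSet ((1 + τ)⁻¹ • vor L) :=
      ((vor_closed L).smul₀ _).measurableSet
    exact this.const_vadd g

lemma good_vol {τ : ℝ} (hτ : 0 < τ) :
    ((1 + τ)⁻¹) ^ finrank ℝ E * (volume : Measure E).real (dom L) ≤
      (volume : Measure E).real (goodSet L τ ∩ dom L) := by
  have h1 := vol_dom_le_vor L
  have h2 := vol_small_vor_le L hτ
  rw [Measure.addHaar_smul] at h2
  have hfin : volume (goodSet L τ ∩ dom L) ≠ ∞ :=
    ((measure_mono Set.inter_subset_right).trans_lt (dom_lt_top L)).ne
  have hT : 0 ≤ ((1 + τ)⁻¹) ^ finrank ℝ E := by positivity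
  rw [abs_of_nonneg hT] at h2
  have h3 : ENNReal.ofReal (((1 + τ)⁻¹) ^ finrank ℝ E) * volume (dom L) ≤
      volume (goodSet L τ ∩ dom L) := (mul_le_mul_right h1 _).trans h2
  have h4 := ENNReal.toReal_mono hfin h3
  rwa [ENNReal.toReal_mul, ENNReal.toReal_ofReal hT] at h4

end Pool.Agent.H900.Tor
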