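import Mathlib

set_option autoImplicit false

/-! Proximal point machinery for the function `phi y = (‖y‖² - dist(y,L)²)/2` attached to a lattice. -/

namespace Pool.Agent.H900.Tor

open Metric
open scoped InnerProductSpace

variable {E : Type*} [NormedAddCommGroup E] [InnerProductSpace ℝ E]

/-- The piecewise linear convex function `max_{k ∈ L} (⟪y,k⟫ - ‖k‖²/2)`. -/
noncomputable def phi (L : Submodule ℤ E) (y : E) : ℝ :=
  (‖y‖ ^ 2 - (infDist y (L : Set E)) ^ 2) / 2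

lemma aff_le_phi (L : Submodule ℤ E) (y : E) {k : E} (hk : k ∈ L) :
    ⟪y, k⟫_ℝ - ‖k‖ ^ 2 / 2 ≤ phi L y := by
  have h1 : infDist y (L : Set E) ≤ dist y k := infDist_le_dist_of_mem hk
  have h0 : 0 ≤ infDist y (L : Set E) := infDist_nonneg
  have h2 : (infDist y (L : Set E)) ^ 2 ≤ ‖y - k‖ ^ 2 := by
    rw [← dist_eq_norm]; exact pow_le_pow_left₀ h0 h1 2
  have h3 : ‖y - k‖ ^ 2 = ‖y‖ ^ 2 - 2 * ⟪y, k⟫_ℝ + ‖k‖ ^ 2 := norm_sub_sq_real y k
  unfold phi
  linarith

lemma phi_eq_of_nearest (L : Submodule ℤ E) (y : E) {k : E}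
    (h : infDist y (L : Set E) = dist y k) : phi L y = ⟪y, k⟫_ℝ - ‖k‖ ^ 2 / 2 := by
  have h3 : ‖y - k‖ ^ 2 = ‖y‖ ^ 2 - 2 * ⟪y, k⟫_ℝ + ‖k‖ ^ 2 := norm_sub_sq_real y k
  unfold phi
  rw [h, dist_eq_norm, h3]
  ring

lemma phi_nonneg (L : Submodule ℤ E) (y : E) : 0 ≤ phi L y := by
  have := aff_le_phi L y (L.zero_mem)
  simpa using this

lemma phi_continuous (L : Submodule ℤ E) : Continuous (phi L) := by
  unfold phi
  have := continuous_infDist_pt (L : Set E)
  fun_prop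

variable [FiniteDimensional ℝ E]

lemma exists_nearest (L : Submodule ℤ E) (hL : IsClosed (L : Set E)) (y : E) :
    ∃ k ∈ L, infDist y (L : Set E) = dist y k := by
  haveI : ProperSpace E := FiniteDimensional.proper ℝ E
  obtain ⟨k, hk, h⟩ := hL.exists_infDist_eq_dist ⟨0, L.zero_mem⟩ y
  exact ⟨k, hk, h⟩

lemma phi_convex (L : Submodule ℤ E) (hL : IsClosed (L : Set E)) (z u : E) {t : ℝ}
    (h0 : 0 ≤ t) (h1 : t ≤ 1) :
    phi L (z + t • (u - z)) ≤ (1 - t) * phi L z + t * phi L u := by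
  obtain ⟨k, hk, h⟩ := exists_nearest L hL (z + t • (u - z))
  rw [phi_eq_of_nearest L _ h]
  have a1 := aff_le_phi L z hk
  have a2 := aff_le_phi L u hk
  have e : ⟪z + t • (u - z), k⟫_ℝ = (1 - t) * ⟪z, k⟫_ℝ + t * ⟪u, k⟫_ℝ := by
    rw [inner_add_left, real_inner_smul_left, inner_sub_left]; ring
  rw [e]
  nlinarith [mul_le_mul_of_nonneg_left a1 (by linarith : (0:ℝ) ≤ 1 - t),
    mul_le_mul_of_nonneg_left a2 h0]

omit [FiniteDimensional ℝ E] in
lemma infDist_add (L : Submodule ℤ E) (u : E) {l : E} (hl : l ∈ L) :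
    infDist (u + l) (L : Set E) = infDist u (L : Set E) := by
  have key : ∀ (u : E) {l : E}, l ∈ L → infDist (u + l) (L : Set E) ≤ infDist u (L : Set E) := by
    intro u l hl
    refine (le_infDist ⟨0, L.zero_mem⟩).2 ?_
    intro k hk
    have h := infDist_le_dist_of_mem (x := u + l) (s := (L : Set E)) (L.add_mem hk hl)
    rwa [dist_add_right] at h
  refine le_antisymm (key u hl) ?_
  have := key (u + l) (L.neg_mem hl)
  simpa using this

omit [FiniteDimensional ℝ E] in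
lemma phi_add (L : Submodule ℤ E) (u : E) {l : E} (hl : l ∈ L) :
    phi L (u + l) = phi L u + ⟪u, l⟫_ℝ + ‖l‖ ^ 2 / 2 := by
  unfold phi
  rw [infDist_add L u hl, norm_add_sq_real]
  ring

/-- `κ` is a subgradient of `phi L` at `z`. -/
def Sub (L : Submodule ℤ E) (z κ : E) : Prop := ∀ u, phi L z + ⟪u - z, κ⟫_ℝ ≤ phi L u

omit [FiniteDimensional ℝ E] in
lemma Sub.mono {L : Submodule ℤ E} {z κ z' κ' : E} (h : Sub L z κ) (h' : Sub L z' κ') :
    0 ≤ ⟪z - z', κ - κ'⟫_ℝ := by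
  have a := h z'
  have b := h' z
  have e1 : ⟪z' - z, κ⟫_ℝ = - ⟪z - z', κ⟫_ℝ := by
    rw [← inner_neg_left]; congr 1; abel
  rw [e1] at a
  rw [inner_sub_right]
  linarith

omit [FiniteDimensional ℝ E] in
lemma Sub.add {L : Submodule ℤ E} {z κ l : E} (h : Sub L z κ) (hl : l ∈ L) :
    Sub L (z + l) (κ + l) := by
  intro u
  have a := h (u - l)
  have e1 : phi L u = phi L (u - l) + ⟪u - l, l⟫_ℝ + ‖l‖ ^ 2 / 2 := by
    have := phi_add L (u - l) hl
    simpa using this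
  rw [e1, phi_add L z hl]
  have e2 : ⟪u - (z + l), κ + l⟫_ℝ = ⟪u - l - z, κ⟫_ℝ + ⟪u - l, l⟫_ℝ - ⟪z, l⟫_ℝ := by
    have : u - (z + l) = u - l - z := by abel
    rw [this, inner_add_right]
    have : ⟪u - l - z, l⟫_ℝ = ⟪u - l, l⟫_ℝ - ⟪z, l⟫_ℝ := by rw [inner_sub_left]
    rw [this]; ring
  rw [e2]
  linarith

/-- If `κ` is a nearest lattice point to `z`, then it is a subgradient. -/
lemma sub_of_nearest {L : Submodule ℤ E} {z κ : E} (hκ : κ ∈ L)
    (h : infDist z (L : Set E) = dist z κ) : Sub L z κ := by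
  intro u
  rw [phi_eq_of_nearest L z h]
  have := aff_le_phi L u hκ
  rw [inner_sub_left]
  linarith

lemma exists_sub (L : Submodule ℤ E) (hL : IsClosed (L : Set E)) {τ : ℝ} (hτ : 0 < τ) (y : E) :
    ∃ κ, Sub L (y - τ • κ) κ := by
  haveI : ProperSpace E := FiniteDimensional.proper ℝ E
  have hcont : Continuous (fun z => phi L z + ‖y - z‖ ^ 2 / (2 * τ)) := by
    have := phi_continuous L
    fun_prop
  have hlim : Filter.Tendsto (fun z => phi L z + ‖y - z‖ ^ 2 / (2 * τ)) (Filter.cocompact E)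
      Filter.atTop := by
    have h1 : Filter.Tendsto (fun z : E => ‖y - z‖) (Filter.cocompact E) Filter.atTop := by
      have h2 : Filter.Tendsto (fun z : E => ‖z‖ - ‖y‖) (Filter.cocompact E) Filter.atTop :=
        Filter.tendsto_atTop_add_const_right _ _ (tendsto_norm_cocompact_atTop)
      refine Filter.tendsto_atTop_mono (fun z => ?_) h2
      have := norm_sub_norm_le z y
      rwa [norm_sub_rev] at this
    have h3 : Filter.Tendsto (fun z : E => ‖y - z‖ ^ 2 / (2 * τ)) (Filter.cocompact E)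
        Filter.atTop := by
      apply Filter.Tendsto.atTop_div_const (by positivity)
      exact (Filter.tendsto_pow_atTop (by norm_num)).comp h1
    refine Filter.tendsto_atTop_mono (fun z => ?_) h3
    have := phi_nonneg L z
    linarith
  obtain ⟨z, hz⟩ := hcont.exists_forall_le hlim
  refine ⟨(1 / τ) • (y - z), ?_⟩
  have hzz : y - τ • ((1 / τ) • (y - z)) = z := by
    rw [smul_smul, mul_one_div_cancel hτ.ne', one_smul]; abel
  rw [hzz]
  intro u
  rw [real_inner_smul_right]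
  -- for every t ∈ (0,1]
  have key : ∀ t : ℝ, 0 < t → t ≤ 1 →
      0 ≤ (phi L u - phi L z - (1 / τ) * ⟪u - z, y - z⟫_ℝ) + t * (‖u - z‖ ^ 2 / (2 * τ)) := by
    intro t ht0 ht1
    have a := hz (z + t • (u - z))
    have b := phi_convex L hL z u ht0.le ht1
    have c : ‖y - (z + t • (u - z))‖ ^ 2 =
        ‖y - z‖ ^ 2 - 2 * (t * ⟪u - z, y - z⟫_ℝ) + t ^ 2 * ‖u - z‖ ^ 2 := by
      have : y - (z + t • (u - z)) = (y - z) - t • (u - z) := by abel
      rw [this, norm_sub_sq_real, real_inner_smul_right, norm_smul, real_inner_comm]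
      rw [mul_pow, Real.norm_eq_abs, sq_abs]
    rw [c] at a
    have d : (‖y - z‖ ^ 2 - 2 * (t * ⟪u - z, y - z⟫_ℝ) + t ^ 2 * ‖u - z‖ ^ 2) / (2 * τ) =
        ‖y - z‖ ^ 2 / (2 * τ) - t * ((1 / τ) * ⟪u - z, y - z⟫_ℝ)
          + t * (t * (‖u - z‖ ^ 2 / (2 * τ))) := by
      field_simp
    rw [d] at a
    have e : 0 ≤ t * ((phi L u - phi L z - (1 / τ) * ⟪u - z, y - z⟫_ℝ)
        + t * (‖u - z‖ ^ 2 / (2 * τ))) := by
      nlinarith [a, b]
    exact nonneg_of_mul_nonneg_right e ht0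
  by_contra hcon
  push Not at hcon
  set A := phi L u - phi L z - (1 / τ) * ⟪u - z, y - z⟫_ℝ with hA
  have hAneg : A < 0 := by rw [hA]; linarith
  set B := ‖u - z‖ ^ 2 / (2 * τ) with hB
  have hB0 : 0 ≤ B := by positivity
  have := key (min 1 (-A / (2 * (B + 1)))) (by
    apply lt_min (by norm_num)
    apply div_pos (by linarith) (by linarith)) (min_le_left _ _)
  have h2 : min 1 (-A / (2 * (B + 1))) * B ≤ (-A / (2 * (B + 1))) * B :=
    mul_le_mul_of_nonneg_right (min_le_right _ _) hB0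
  have h3 : (-A / (2 * (B + 1))) * B ≤ -A / 2 := by
    rw [div_mul_eq_mul_div, div_le_div_iff₀ (by linarith) (by norm_num)]
    nlinarith
  linarith

/-- data: `κ` is the value of the map at the point `w` with parameter `τ`. -/
def Good (L : Submodule ℤ E) (τ : ℝ) (w κ : E) : Prop := Sub L ((1 + τ) • w - τ • κ) κ

lemma exists_good (L : Submodule ℤ E) (hL : IsClosed (L : Set E)) {τ : ℝ} (hτ : 0 < τ) (w : E) :
    ∃ κ, Good L τ w κ := exists_sub L hL hτ ((1 + τ) • w)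

omit [FiniteDimensional ℝ E] in
lemma Good.coco {L : Submodule ℤ E} {τ : ℝ} {w κ w' κ' : E} (h : Good L τ w κ)
    (h' : Good L τ w' κ') :
    τ * ‖κ - κ'‖ ^ 2 ≤ (1 + τ) * ⟪w - w', κ - κ'⟫_ℝ := by
  have a := Sub.mono h h'
  have e : (1 + τ) • w - τ • κ - ((1 + τ) • w' - τ • κ') = (1 + τ) • (w - w') - τ • (κ - κ') := by
    rw [smul_sub, smul_sub]; abel
  rw [e, inner_sub_left, real_inner_smul_left, real_inner_smul_left,
    real_inner_self_eq_norm_sq] at a
  linarith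

omit [FiniteDimensional ℝ E] in
lemma Good.unique {L : Submodule ℤ E} {τ : ℝ} (hτ : 0 < τ) {w κ κ' : E} (h : Good L τ w κ)
    (h' : Good L τ w κ') : κ = κ' := by
  have a := h.coco h'
  rw [sub_self, inner_zero_left, mul_zero] at a
  have b : ‖κ - κ'‖ ^ 2 ≤ 0 := by
    by_contra hc
    push Not at hc
    have := mul_pos hτ hc
    linarith
  have c : ‖κ - κ'‖ = 0 := by
    have := sq_nonneg ‖κ - κ'‖
    exact pow_eq_zero_iff (two_ne_zero) |>.1 (le_antisymm b this)
  exact sub_eq_zero.1 (norm_eq_zero.1 c)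

omit [FiniteDimensional ℝ E] in
lemma Good.add {L : Submodule ℤ E} {τ : ℝ} {w κ l : E} (h : Good L τ w κ) (hl : l ∈ L) :
    Good L τ (w + l) (κ + l) := by
  unfold Good at *
  have e : (1 + τ) • (w + l) - τ • (κ + l) = (1 + τ) • w - τ • κ + l := by
    module
  rw [e]
  exact Sub.add h hl

/-- The map `K`. -/
noncomputable def K (L : Submodule ℤ E) (τ : ℝ) (w : E) : E :=
  open Classical in if h : ∃ κ, Good L τ w κ then h.choose else 0

lemma K_good (L : Submodule ℤ E) (hL : IsClosed (L : Set E)) {τ : ℝ} (hτ : 0 < τ) (w : E) :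
    Good L τ w (K L τ w) := by
  have h := exists_good L hL hτ w
  unfold K
  rw [dif_pos h]
  exact h.choose_spec

omit [FiniteDimensional ℝ E] in
lemma K_eq (L : Submodule ℤ E) {τ : ℝ} (hτ : 0 < τ) {w κ : E} (h : Good L τ w κ) :
    K L τ w = κ := by
  have h0 : ∃ κ, Good L τ w κ := ⟨κ, h⟩
  unfold K
  rw [dif_pos h0]
  exact Good.unique hτ h0.choose_spec h

lemma K_add (L : Submodule ℤ E) (hL : IsClosed (L : Set E)) {τ : ℝ} (hτ : 0 < τ) (w : E) {l : E}
    (hl : l ∈ L) : K L τ (w + l) = K L τ w + l :=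
  K_eq L hτ ((K_good L hL hτ w).add hl)

lemma K_coco (L : Submodule ℤ E) (hL : IsClosed (L : Set E)) {τ : ℝ} (hτ : 0 < τ) (w w' : E) :
    τ * ‖K L τ w - K L τ w'‖ ^ 2 ≤ (1 + τ) * ⟪w - w', K L τ w - K L τ w'⟫_ℝ :=
  (K_good L hL hτ w).coco (K_good L hL hτ w')

lemma K_continuous (L : Submodule ℤ E) (hL : IsClosed (L : Set E)) {τ : ℝ} (hτ : 0 < τ) :
    Continuous (K L τ) := by
  have hlip : LipschitzWith (Real.toNNReal ((1 + τ) / τ)) (K L τ) := by
    apply LipschitzWith.of_dist_le_mul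
    intro w w'
    rw [dist_eq_norm, dist_eq_norm, Real.coe_toNNReal _ (by positivity)]
    have a := K_coco L hL hτ w w'
    have b : ⟪w - w', K L τ w - K L τ w'⟫_ℝ ≤ ‖w - w'‖ * ‖K L τ w - K L τ w'‖ :=
      real_inner_le_norm _ _
    rcases (norm_nonneg (K L τ w - K L τ w')).eq_or_lt with h | h
    · rw [← h]; positivity
    · rw [div_mul_eq_mul_div, le_div_iff₀ hτ]
      have c : τ * ‖K L τ w - K L τ w'‖ ^ 2 ≤ (1 + τ) * (‖w - w'‖ * ‖K L τ w - K L τ w'‖) :=
        a.trans (mul_le_mul_of_nonneg_left b (by linarith))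
      have d : (‖K L τ w - K L τ w'‖ * τ) * ‖K L τ w - K L τ w'‖ ≤
          ((1 + τ) * ‖w - w'‖) * ‖K L τ w - K L τ w'‖ := by nlinarith [c]
      exact le_of_mul_le_mul_right d h
  exact hlip.continuous

/-- Good points: in the shrunken Voronoi cell around `k` the map `K` takes the value `k`. -/
lemma K_eq_of_voronoi (L : Submodule ℤ E) {τ : ℝ} (hτ : 0 < τ) {k v : E}
    (hk : k ∈ L) (hv : infDist v (L : Set E) = ‖v‖) : K L τ (k + (1 + τ)⁻¹ • v) = k := by
  apply K_eq L hτ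
  unfold Good
  have h1 : (1 + τ) ≠ 0 := by linarith
  have e : (1 + τ) • (k + (1 + τ)⁻¹ • v) - τ • k = v + k := by
    rw [smul_add, smul_smul, mul_inv_cancel₀ h1, add_smul, one_smul, one_smul]; abel
  rw [e]
  apply sub_of_nearest hk
  rw [infDist_add L v hk, hv, dist_eq_norm]
  simp

end Pool.Agent.H900.Tor
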